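import Mathlib
import Pool.Agent.L7h48.TR.CommonC

/-!
# Common parts of the rotated restrictions of the traces of `C*(ℤ² ⋉ ℤ[1/6])`

Let `G` be the group generated by `x ↦ 2 x`, `x ↦ 3 x`, `x ↦ x + 1` on `ℚ`, a copy of
`ℤ² ⋉ ℤ[1/6]`, and let `A` be its subgroup of translations, a copy of `ℤ[1/6]`.  The tracial states
of `C*(G)` are the normalised positive definite class functions on `G`.  A character `χ` of `A`
rotates the restriction of a tracial state `ψ` to `C*(A)` into the state `χ ψ`, which is not the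
restriction of a trace any more.

Two states on `C*(A)` are not disjoint if there is a positive functional `η ≠ 0` below both, that is,
a positive definite function `η` with `η (1) = c > 0` such that the differences are positive
definite.  For a given `φ` this can happen for infinitely many characters `χ` (and any tracial states
`ψ`) only if `φ` dominates a multiple of the regular trace on `A`; an extreme `φ` is then the regular
trace.

The measure theorem behind it is `Pool.Agent.R477.XQ.main_iff` (`MP_96e181_an.DistinctTranslates`).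
-/

set_option autoImplicit false

open scoped ComplexOrder

namespace Pool.Agent.Results.MP_81910f_an.CommonParts

/-- The tracial states of `C*(G)`: the normalised positive definite class functions on `G`. -/
def TracialStates (G : Subgroup (Equiv.Perm ℚ)) : Set (G → ℂ) :=
  {ψ | ψ 1 = 1 ∧ (∀ g h : G, ψ (h * g * h⁻¹) = ψ g) ∧
    ∀ (s : Finset G) (c : G → ℂ), 0 ≤ ∑ i ∈ s, ∑ j ∈ s, star (c j) * c i * ψ (j⁻¹ * i)}

/-- The subgroup `A` of the translations `x ↦ x + r` in `G`. -/
def Translations (G : Subgroup (Equiv.Perm ℚ)) : Subgroup G where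
  carrier := {h | ∃ r : ℚ, ∀ x : ℚ, (h : Equiv.Perm ℚ) x = x + r}
  one_mem' := ⟨0, fun x => by simp⟩
  mul_mem' := by
    rintro a b ⟨r, ha⟩ ⟨s, hb⟩
    refine ⟨r + s, fun x => ?_⟩
    rw [Subgroup.coe_mul, Equiv.Perm.mul_apply, ha, hb]
    ring
  inv_mem' := by
    rintro a ⟨r, ha⟩
    refine ⟨-r, fun x => ?_⟩
    rw [Subgroup.coe_inv, Equiv.Perm.inv_eq_iff_eq, ha]
    ring

/-- Positive definite functions on the translations. -/
def PosDef {G : Subgroup (Equiv.Perm ℚ)} (f : Translations G → ℂ) : Prop :=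
  ∀ (s : Finset (Translations G)) (c : Translations G → ℂ),
    0 ≤ ∑ i ∈ s, ∑ j ∈ s, star (c j) * c i * f (j⁻¹ * i)

/-- The regular trace, the indicator function of the identity. -/
noncomputable def regularTrace (G : Subgroup (Equiv.Perm ℚ)) : G → ℂ :=
  Set.indicator ({1} : Set G) (fun _ => (1 : ℂ))

/-- On the translations `φ` dominates `c` times the regular trace. -/
def Dominates {G : Subgroup (Equiv.Perm ℚ)} (c : ℝ) (φ : G → ℂ) : Prop :=
  PosDef fun h : Translations G => φ h - (c : ℂ) * regularTrace G h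

/-- The functions `h ↦ φ (h ^ a)` and `h ↦ χ (h) ψ (h ^ b)` on the translations have a common positive
definite part `η` of mass `η (1) = c`. -/
def CommonPart {G : Subgroup (Equiv.Perm ℚ)} (a b : ℤ) (c : ℝ) (φ ψ : G → ℂ)
    (χ : Translations G →* Circle) : Prop :=
  ∃ η : Translations G → ℂ, η 1 = (c : ℂ) ∧ PosDef η ∧
    PosDef (fun h : Translations G => φ ((h : G) ^ a) - η h) ∧
    PosDef (fun h : Translations G => (χ h : ℂ) * ψ ((h : G) ^ b) - η h)

/-- **Common parts of rotated traces.** Let `a, b` be nonzero integers.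
(1) For a tracial state `φ` and `c ≥ 0` the set of the characters `χ` of the translations for which
some tracial state `ψ` has a common part of mass `c` with `φ` (in the sense of `CommonPart`) is finite
if and only if `φ` does not dominate `c` times the regular trace on the translations.
(2) If tracial states `φ` and `ψ` have a common part of mass `c ≥ 0` for a character `χ` of infinite
order, then both dominate `c` times the regular trace on the translations.
(3) If `φ` is an extreme tracial state, not the regular trace, and `c > 0`, then only finitely many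
characters `χ` admit a tracial state `ψ` with a common part of mass `c`, and all of them are of
finite order. -/
theorem result (s2 s3 t : Equiv.Perm ℚ) (h2 : ∀ x : ℚ, s2 x = 2 * x) (h3 : ∀ x : ℚ, s3 x = 3 * x)
    (ht : ∀ x : ℚ, t x = x + 1) (G : Subgroup (Equiv.Perm ℚ))
    (hG : G = Subgroup.closure {s2, s3, t}) (a b : ℤ) (ha : a ≠ 0) (hb : b ≠ 0) :
    (∀ φ ∈ TracialStates G, ∀ c : ℝ, 0 ≤ c →
      ({χ : Translations G →* Circle | ∃ ψ ∈ TracialStates G, CommonPart a b c φ ψ χ}.Finite ↔
        ¬ Dominates c φ)) ∧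
    (∀ φ ∈ TracialStates G, ∀ ψ ∈ TracialStates G, ∀ c : ℝ, 0 ≤ c →
      ∀ χ : Translations G →* Circle, (∀ n : ℕ, 1 ≤ n → χ ^ n ≠ 1) → CommonPart a b c φ ψ χ →
        Dominates c φ ∧ Dominates c ψ) ∧
    (∀ φ ∈ Set.extremePoints ℝ (TracialStates G), φ ≠ regularTrace G → ∀ c : ℝ, 0 < c →
      {χ : Translations G →* Circle | ∃ ψ ∈ TracialStates G, CommonPart a b c φ ψ χ}.Finite ∧
      ∀ χ : Translations G →* Circle, (∃ ψ ∈ TracialStates G, CommonPart a b c φ ψ χ) →
        ∃ n : ℕ, 1 ≤ n ∧ χ ^ n = 1) := by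
  classical
  have hA : ∀ h : G, h ∈ Translations G ↔ ∃ r : ℚ, ∀ x : ℚ, (h : Equiv.Perm ℚ) x = x + r :=
    fun h => Iff.rfl
  have hreg : regularTrace G = Pool.Agent.L7h48.TR.reg G := by
    funext h
    unfold regularTrace Pool.Agent.L7h48.TR.reg
    rw [Set.indicator_apply]
    rfl
  have hdata : ∀ ψ ∈ TracialStates G, ∃ (τ' : ℤ → G) (S6' : G) (ν : MeasureTheory.Measure
      UnitAddCircle), Pool.Agent.TH654.FC.Data G τ' ψ S6' ν := fun ψ hψ =>
    Pool.Agent.TH654.FC.data_of h2 h3 ht hG hψ.1 hψ.2.1 hψ.2.2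
  have key : ∀ φ ∈ TracialStates G, ∀ c : ℝ, 0 ≤ c → ∀ a b : ℤ, a ≠ 0 → b ≠ 0 → ¬ Dominates c φ →
      {χ : Translations G →* Circle | ∃ ψ ∈ TracialStates G, CommonPart a b c φ ψ χ}.Finite ∧
      ∀ χ : Translations G →* Circle, (∃ ψ ∈ TracialStates G, CommonPart a b c φ ψ χ) →
        ∃ n : ℕ, 1 ≤ n ∧ χ ^ n = 1 := by
    intro φ hφ c hc a b ha hb hnot
    obtain ⟨τ, S6, μ, D⟩ := hdata φ hφ
    refine Pool.Agent.L7h48.TR.fin_of_not hA D (c := ⟨c, hc⟩) (fun hle => hnot ?_) ha hb hdata
    have h5 := Pool.Agent.L7h48.TR.dom_of_le hA D hle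
    unfold Dominates
    rw [hreg]
    exact h5
  have hT : Pool.Agent.L7h48.TR.reg G ∈ TracialStates G ∨ TracialStates G = ∅ := by
    by_cases hne : (TracialStates G).Nonempty
    · left
      obtain ⟨φ, hφ⟩ := hne
      obtain ⟨τ, S6, μ, D⟩ := hdata φ hφ
      have m2 := Pool.Agent.L7h48.TR.mp_vol2 (p := 2) le_rfl
      have m3 := Pool.Agent.L7h48.TR.mp_vol2 (p := 3) (by norm_num)
      rw [← Pool.Agent.L7h48.TR.ext_vol D]
      exact ⟨Pool.Agent.R481.TraceErg.ext_one m2 m3,
        fun g h => Pool.Agent.R481.TraceErg.ext_class m2 m3 D.hform g h,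
        Pool.Agent.R481.TraceErg.ext_pd m2 m3 D.hform⟩
    · right
      exact Set.not_nonempty_iff_eq_empty.1 hne
  refine ⟨fun φ hφ c hc => ⟨fun hfin hdom => ?_, fun hnot => (key φ hφ c hc a b ha hb hnot).1⟩,
    fun φ hφ ψ hψ c hc χ hχ hcom => ⟨?_, ?_⟩, fun φ hφ hne c hc => ?_⟩
  · -- domination gives all the characters
    obtain ⟨τ, S6, μ, D⟩ := hdata φ hφ
    have hTr : Pool.Agent.L7h48.TR.reg G ∈ TracialStates G := by
      rcases hT with h | h
      · exact h
      · rw [h] at hφ; exact absurd hφ (Set.notMem_empty _)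
    have hinf := Pool.Agent.L7h48.TR.inf_char hA D
    unfold Dominates at hdom
    rw [hreg] at hdom
    refine Set.infinite_univ (hfin.subset fun χ _ => ?_)
    exact ⟨_, hTr, Pool.Agent.L7h48.TR.comm_of_dom hA D (c := ⟨c, hc⟩) hdom ha hb χ⟩
  · by_contra hnot
    obtain ⟨n, hn, h⟩ := (key φ hφ c hc a b ha hb hnot).2 χ ⟨ψ, hψ, hcom⟩
    exact hχ n hn h
  · by_contra hnot
    obtain ⟨n, hn, h⟩ := (key ψ hψ c hc b a hb ha hnot).2 χ⁻¹
      ⟨φ, hφ, Pool.Agent.L7h48.TR.Comm.symm hcom⟩
    refine hχ n hn ?_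
    have h5 : (χ ^ n)⁻¹ = 1 := by rw [← inv_pow]; exact h
    exact inv_eq_one.1 h5
  · refine key φ hφ.1 c hc.le a b ha hb fun hdom => hne ?_
    obtain ⟨τ, S6, μ, D⟩ := hdata φ hφ.1
    unfold Dominates at hdom
    rw [hreg] at hdom ⊢
    obtain ⟨κ, hκ, hμ⟩ := Pool.Agent.L7h48.TR.le_of_dom hA D (c := ⟨c, hc.le⟩) hdom
    exact Pool.Agent.L7h48.TR.ext_dom D hφ (c := ⟨c, hc.le⟩) (by exact_mod_cast hc) hμ

end Pool.Agent.Results.MP_81910f_an.CommonParts
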