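import Mathlib
import Pool.Agent.L7h48.TR.Dim

/-!
# The numbers whose orbit averages lead to a given kind of trace of `C*(ℤ² ⋉ ℤ[1/6])`

Let `G` be the group generated by `x ↦ 2 x`, `x ↦ 3 x`, `x ↦ x + 1` on `ℚ`, a copy of
`ℤ² ⋉ ℤ[1/6]`.  The tracial states of `C*(G)` are the normalised positive definite class functions
on `G`.  A point `x` of the circle is a character of the group of the translations by integers; its
averages over the conjugations by the dilations by `n = 2 ^ i 3 ^ j ≤ N` accumulate, as `N → ∞`, at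
the restrictions of tracial states, and every `x` leads to at least one of them.  For almost every
`x` it is the regular trace only.  Here is the exact Hausdorff dimension of the set of the points
which lead to a tracial state that does not dominate a given multiple of the regular trace; the
points which lead to some extreme tracial state other than the regular one are a set of dimension
zero.

The theorem on frequencies behind it is `Pool.Agent.Y314.FD.spectrum`
(`MP_96e181_an.DimensionSpectrum`).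
-/

set_option autoImplicit false

open Filter Topology
open scoped ComplexOrder

namespace Pool.Agent.Results.MP_81910f_an.DimensionSpectrum

/-- The tracial states of `C*(G)`: the normalised positive definite class functions on `G`. -/
def TracialStates (G : Subgroup (Equiv.Perm ℚ)) : Set (G → ℂ) :=
  {ψ | ψ 1 = 1 ∧ (∀ g h : G, ψ (h * g * h⁻¹) = ψ g) ∧
    ∀ (s : Finset G) (c : G → ℂ), 0 ≤ ∑ i ∈ s, ∑ j ∈ s, star (c j) * c i * ψ (j⁻¹ * i)}

/-- The subgroup of the translations `x ↦ x + r` in `G`. -/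
def Translations (G : Subgroup (Equiv.Perm ℚ)) : Subgroup G where
  carrier := {h | ∃ r : ℚ, ∀ x : ℚ, (h : Equiv.Perm ℚ) x = x + r}
  one_mem' := ⟨0, fun x => by simp⟩
  mul_mem' := by
    rintro a b ⟨r, ha⟩ ⟨s, hb⟩
    refine ⟨r + s, fun x => ?_⟩
    rw [Subgroup.coe_mul, Equiv.Perm.mul_apply, ha, hb]
    ring
  inv_mem' := by
    rintro a ⟨r, ha⟩
    refine ⟨-r, fun x => ?_⟩
    rw [Subgroup.coe_inv, Equiv.Perm.inv_eq_iff_eq, ha]
    ring

/-- The regular trace, the indicator function of the identity. -/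
noncomputable def regularTrace (G : Subgroup (Equiv.Perm ℚ)) : G → ℂ :=
  Set.indicator ({1} : Set G) (fun _ => (1 : ℂ))

/-- On the translations `φ` dominates `c` times the regular trace: the difference is a positive
definite function on the subgroup of the translations. -/
def Dominates {G : Subgroup (Equiv.Perm ℚ)} (c : ℝ) (φ : G → ℂ) : Prop :=
  ∀ (s : Finset (Translations G)) (w : Translations G → ℂ), 0 ≤ ∑ i ∈ s, ∑ j ∈ s,
    star (w j) * w i * (φ ((j⁻¹ * i : Translations G) : G) -
      (c : ℂ) * regularTrace G ((j⁻¹ * i : Translations G) : G))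

open Classical in
/-- The integers `n = 2 ^ i * 3 ^ j` with `1 ≤ n ≤ N`. -/
noncomputable def smooth (N : ℕ) : Finset ℕ :=
  (Finset.range (N + 1)).filter fun n => ∃ i j : ℕ, n = 2 ^ i * 3 ^ j

/-- The point `x` of the circle leads to `φ`: for some `N_1 < N_2 < …`, for every integer `m`, the
averages of `exp (2 π i m n x)` over the integers `n = 2 ^ i * 3 ^ j ≤ N_k` tend to the value of
`φ` at the translation by `m`. -/
def LeadsTo {G : Subgroup (Equiv.Perm ℚ)} (x : UnitAddCircle) (φ : G → ℂ) : Prop :=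
  ∃ N : ℕ → ℕ, StrictMono N ∧ ∀ (m : ℤ) (g : G), (∀ y : ℚ, (g : Equiv.Perm ℚ) y = y + m) →
    Tendsto (fun k => (∑ n ∈ smooth (N k), (fourier m (n • x) : ℂ)) / ((smooth (N k)).card : ℂ))
      atTop (𝓝 (φ g))

/-- **The dimension spectrum of the traces.**
(1) Every point `x` of the circle leads to some tracial state.
(2) For `0 ≤ s ≤ 1` the set of the points which lead to some tracial state that does not dominate
`1 - (1 - s) ^ 2` times the regular trace on the translations has Hausdorff dimension exactly `s`.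
(3) The set of the points which lead to some extreme tracial state other than the regular trace has
Hausdorff dimension `0`. -/
theorem result (s2 s3 t : Equiv.Perm ℚ) (h2 : ∀ x : ℚ, s2 x = 2 * x) (h3 : ∀ x : ℚ, s3 x = 3 * x)
    (ht : ∀ x : ℚ, t x = x + 1) (G : Subgroup (Equiv.Perm ℚ))
    (hG : G = Subgroup.closure {s2, s3, t}) :
    (∀ x : UnitAddCircle, ∃ φ ∈ TracialStates G, LeadsTo x φ) ∧
    (∀ s : ℝ, 0 ≤ s → s ≤ 1 →
      dimH {x : UnitAddCircle | ∃ φ ∈ TracialStates G, LeadsTo x φ ∧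
        ¬ Dominates (1 - (1 - s) ^ 2) φ} = ENNReal.ofReal s) ∧
    dimH {x : UnitAddCircle | ∃ φ ∈ Set.extremePoints ℝ (TracialStates G),
      φ ≠ regularTrace G ∧ LeadsTo x φ} = 0 := by
  classical
  have hA : ∀ h : G, h ∈ Translations G ↔ ∃ r : ℚ, ∀ x : ℚ, (h : Equiv.Perm ℚ) x = x + r :=
    fun h => Iff.rfl
  have hreg : regularTrace G = Pool.Agent.L7h48.TR.reg G := by
    funext h
    unfold regularTrace Pool.Agent.L7h48.TR.reg
    rw [Set.indicator_apply]
    rfl
  have hsm : ∀ N : ℕ, smooth N = Pool.Agent.L7h48.TR.smooth N := by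
    intro N
    ext n
    unfold smooth Pool.Agent.L7h48.TR.smooth
    simp only [Finset.mem_filter]
  have hlead : ∀ (x : UnitAddCircle) (φ : G → ℂ), LeadsTo x φ ↔ Pool.Agent.L7h48.TR.Lead x φ := by
    intro x φ
    unfold LeadsTo Pool.Agent.L7h48.TR.Lead Pool.Agent.L7h48.TR.avg
    simp only [hsm]
  have hdom : ∀ (c : ℝ) (φ : G → ℂ), Dominates c φ ↔ Pool.Agent.W763.Tr.PD
      (fun h : Translations G => φ h - (c : ℂ) * Pool.Agent.L7h48.TR.reg G h) := by
    intro c φ
    unfold Dominates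
    rw [hreg]
    exact Iff.rfl
  have key : ∀ s : ℝ, 0 ≤ s → s ≤ 1 →
      dimH {x : UnitAddCircle | ∃ φ ∈ TracialStates G, LeadsTo x φ ∧
        ¬ Dominates (1 - (1 - s) ^ 2) φ} = ENNReal.ofReal s := by
    intro s hs0 hs1
    have hc : 0 ≤ 1 - (1 - s) ^ 2 := by nlinarith
    rw [← Pool.Agent.Y314.FD.spectrum (p := 2) (q := 3) le_rfl (by norm_num) (by norm_num) hs0 hs1]
    congr 1
    ext x
    have h1 := Pool.Agent.L7h48.TR.lead_iff h2 h3 ht hG hA ⟨1 - (1 - s) ^ 2, hc⟩ x
    rw [Set.mem_ofPred_eq, Set.mem_ofPred_eq]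
    refine Iff.trans ?_ h1
    refine exists_congr fun φ => and_congr_right fun _ => ?_
    rw [hlead, hdom]
    exact Iff.rfl
  refine ⟨fun x => ?_, key, ?_⟩
  · obtain ⟨κ, μ, P, hκ, hNκ, hP, hlim⟩ := Pool.Agent.L7h48.TR.exists_sub x (fun k => k) strictMono_id
    obtain ⟨n2, n3⟩ := Pool.Agent.L7h48.TR.lim_mp hNκ hκ.tendsto_atTop hP hlim
    refine ⟨_, Pool.Agent.L7h48.TR.ext_TS h2 h3 ht hG n2 n3, ?_⟩
    rw [hlead]
    refine ⟨κ, hκ, fun m g hg => ?_⟩
    rw [Pool.Agent.R481.TraceErg.ext_trans n2 n3 (n := m) (k := 0) (g := g)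
      (fun y => by rw [hg]; simp)]
    refine (Pool.Agent.L7h48.TR.tendsto_coeff hlim m).congr fun k => ?_
    rw [Pool.Agent.L7h48.TR.avg_eq, hP]
  · refine le_antisymm (ENNReal.le_of_forall_pos_le_add fun ε hε _ => ?_) zero_le
    rw [zero_add]
    set s : ℝ := min 1 ε with hs
    have hs0 : 0 < s := lt_min one_pos (by exact_mod_cast hε)
    have hs1 : s ≤ 1 := min_le_left _ _
    have hc : 0 < 1 - (1 - s) ^ 2 := by nlinarith
    have hsub : {x : UnitAddCircle | ∃ φ ∈ Set.extremePoints ℝ (TracialStates G),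
        φ ≠ regularTrace G ∧ LeadsTo x φ} ⊆ {x : UnitAddCircle | ∃ φ ∈ TracialStates G,
          LeadsTo x φ ∧ ¬ Dominates (1 - (1 - s) ^ 2) φ} := by
      rintro x ⟨φ, hφ, hne, hx⟩
      refine ⟨φ, hφ.1, hx, fun hd => hne ?_⟩
      rw [hdom] at hd
      rw [hreg]
      obtain ⟨τ, S6, μ, D⟩ := Pool.Agent.TH654.FC.data_of h2 h3 ht hG hφ.1.1 hφ.1.2.1 hφ.1.2.2
      obtain ⟨κ, hκ, hμ⟩ := Pool.Agent.L7h48.TR.le_of_dom hA D (c := ⟨_, hc.le⟩) hd
      exact Pool.Agent.L7h48.TR.ext_dom D hφ (c := ⟨_, hc.le⟩) (by exact_mod_cast hc) hμ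
    refine (dimH_mono hsub).trans ?_
    rw [key s hs0.le hs1]
    refine (ENNReal.ofReal_le_ofReal (min_le_right 1 (ε : ℝ))).trans ?_
    rw [ENNReal.ofReal_coe_nnreal]

end Pool.Agent.Results.MP_81910f_an.DimensionSpectrum
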