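import Mathlib
import Pool.Agent.L7h55.IDT.Fin

/-!
# Infinitely divisible tracial states of `C*(ℤ² ⋉ ℤ[1/6])` and the gap at one

Let `G` be the group generated by `x ↦ 2 x`, `x ↦ 3 x`, `x ↦ x + 1` on `ℚ`, a copy of
`ℤ² ⋉ ℤ[1/6]`.  The tracial states of `C*(G)` are the normalised positive definite class functions
`φ` on `G` (`TSt`); the translations of `G` form a copy of `ℤ[1/6]` (`Transl`).

A tracial state is called *diffuse* if the means of `|φ(g ^ n)|²` tend to `0` for every translation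
`g ≠ 1`: by Wiener's lemma its restriction to `C*(ℤ[1/6])` has no atoms, so that it has no
conditionally finite-dimensional part.  It is *infinitely divisible* if for every `n ≥ 1` it is the
`n`-th power (pointwise) of a tracial state.  We prove that the following are equivalent.

1. The only diffuse infinitely divisible tracial state is the regular trace `Δ`.
2. There is `c > 0` with `Re φ(g) ≤ 1 - c` for all diffuse tracial states `φ` and all translations
   `g ≠ 1`.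
3. There is `c > 0` such that `φ(g) = 1` or `Re φ(g) ≤ 1 - c` for all EXTREME tracial states `φ`
   and all translations `g`: the value `1` is isolated.
4. Uniform faithfulness: for every nonzero element `a` of the group algebra of the translations
   there is `δ > 0` with `φ(a* a) ≥ δ` for all diffuse tracial states `φ`.
5. Every conditionally negative definite function on the translations which is constant on the
   conjugacy classes of `G` is bounded.
6. There is a constant `C` with `ψ(g) ≤ C ψ(x ↦ x + 1)` for all such functions `ψ` and all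
   translations `g`.

Without any hypothesis: if `φ` is an infinitely divisible tracial state and `φ(g) ≠ 0` for a
translation `g`, the means of `|φ(g ^ n)|²` over `n < N` are at least `exp (- C (log N) ^ κ)`, for
every `κ > 0`.
-/

set_option autoImplicit false

open MeasureTheory Filter Topology
open scoped ComplexOrder

namespace Pool.Agent.Results.MP_81910f_an.InfinitelyDivisibleTraces

section

variable (G : Subgroup (Equiv.Perm ℚ))

/-- The tracial states of `C*(G)`: normalised positive definite class functions. -/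
def TSt : Set (G → ℂ) := {ψ : G → ℂ | ψ 1 = 1 ∧ (∀ g h : G, ψ (h * g * h⁻¹) = ψ g) ∧
  ∀ (s : Finset G) (c : G → ℂ), 0 ≤ ∑ i ∈ s, ∑ j ∈ s, star (c j) * c i * ψ (j⁻¹ * i)}

/-- The translations. -/
def Transl : Set G := {g : G | ∃ r : ℚ, ∀ x : ℚ, (g : Equiv.Perm ℚ) x = x + r}

variable {G}

/-- No conditionally finite-dimensional part: the mean squares along all nontrivial translations
tend to zero. -/
def Diffuse (φ : G → ℂ) : Prop := ∀ g ∈ Transl G, g ≠ 1 →
  Tendsto (fun N : ℕ => (∑ n ∈ Finset.range N, ‖φ (g ^ n)‖ ^ 2) / N) atTop (𝓝 0)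

/-- `φ` is for every `n ≥ 1` the `n`-th power of a tracial state. -/
def InfDivisible (φ : G → ℂ) : Prop := ∀ n : ℕ, 1 ≤ n → ∃ ψ ∈ TSt G, ∀ g : G, ψ g ^ n = φ g

/-- Conditionally negative definite functions on the translations which are constant on the
conjugacy classes of `G` (the values outside of the translations play no role). -/
structure NegDef (ψ : G → ℝ) : Prop where
  one : ψ 1 = 0
  inv : ∀ g ∈ Transl G, ψ g⁻¹ = ψ g
  conj : ∀ g h : G, ψ (h * g * h⁻¹) = ψ g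
  neg : ∀ (n : ℕ) (x : Fin n → G) (w : Fin n → ℝ), (∀ i, x i ∈ Transl G) → ∑ i, w i = 0 →
    ∑ i, ∑ j, w i * w j * ψ ((x j)⁻¹ * x i) ≤ 0

end

theorem result (s2 s3 t : Equiv.Perm ℚ) (h2 : ∀ x : ℚ, s2 x = 2 * x) (h3 : ∀ x : ℚ, s3 x = 3 * x)
    (ht : ∀ x : ℚ, t x = x + 1) (G : Subgroup (Equiv.Perm ℚ))
    (hG : G = Subgroup.closure {s2, s3, t}) :
    List.TFAE [
      ∀ φ ∈ TSt G, Diffuse φ → InfDivisible φ → φ = Set.indicator ({1} : Set G) (fun _ => (1 : ℂ)),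
      ∃ c : ℝ, 0 < c ∧ ∀ φ ∈ TSt G, Diffuse φ → ∀ g ∈ Transl G, g ≠ 1 → (φ g).re ≤ 1 - c,
      ∃ c : ℝ, 0 < c ∧ ∀ φ ∈ (TSt G).extremePoints ℝ, ∀ g ∈ Transl G,
        φ g = 1 ∨ (φ g).re ≤ 1 - c,
      ∀ (s : Finset G) (a : G → ℂ), (∀ g ∈ s, g ∈ Transl G) → (∃ g ∈ s, a g ≠ 0) →
        ∃ δ : ℝ, 0 < δ ∧ ∀ φ ∈ TSt G, Diffuse φ →
          δ ≤ (∑ i ∈ s, ∑ j ∈ s, star (a j) * a i * φ (j⁻¹ * i)).re,
      ∀ ψ : G → ℝ, NegDef ψ → ∃ b : ℝ, ∀ g ∈ Transl G, ψ g ≤ b,
      ∃ C : ℝ, ∀ ψ : G → ℝ, NegDef ψ → ∀ g ∈ Transl G, ∀ u : G, (u : Equiv.Perm ℚ) = t →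
        ψ g ≤ C * ψ u] ∧
    ∀ κ : ℝ, 0 < κ → ∀ φ ∈ TSt G, InfDivisible φ → ∀ g ∈ Transl G, φ g ≠ 0 →
      ∃ C : ℝ, ∀ N : ℕ, 2 ≤ N → Real.exp (-(C * Real.log N ^ κ)) ≤
        (∑ n ∈ Finset.range N, ‖φ (g ^ n)‖ ^ 2) / N := by
  obtain ⟨τ, S2, S3, S6, B⟩ := Pool.Agent.L7h55.IDT.basics h2 h3 ht hG
  have mt : t ∈ G := by rw [hG]; exact Subgroup.subset_closure (by simp)
  have ht1 : (⟨t, mt⟩ : G) = τ 1 := by
    apply Subtype.ext
    apply Equiv.ext
    intro x
    rw [B.hτ]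
    simpa using ht x
  have hcnd : ∀ ψ : G → ℝ, NegDef ψ → Pool.Agent.L7h55.IDT.NegDef ψ := fun ψ h =>
    ⟨h.one, h.inv, h.conj, h.neg⟩
  have hcnd' : ∀ ψ : G → ℝ, Pool.Agent.L7h55.IDT.NegDef ψ → NegDef ψ := fun ψ h =>
    ⟨h.one, h.inv, h.conj, h.neg⟩
  have hgap2 : ∀ c : ℝ, 0 < c → Pool.Agent.L7h55.ID.Gap 2 3 c →
      ∀ φ ∈ TSt G, Diffuse φ → ∀ g ∈ Transl G, g ≠ 1 → (φ g).re ≤ 1 - c := by
    intro c hc hGap φ hφ hd g hg hg1
    obtain ⟨μ, D⟩ := B.data φ hφ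
    exact Pool.Agent.L7h55.IDT.gap_diffuse hGap D hd hg hg1
  refine ⟨?_, fun κ hκ φ hφ hid g hg hne =>
    Pool.Agent.L7h55.IDT.slow_trace B hκ hφ hid hg hne⟩
  tfae_have 1 → 2 := by
    intro h
    obtain ⟨c, hc, hGap⟩ := Pool.Agent.L7h55.IDT.gap_of_infdiv B
      (fun φ hφ hd hid => h φ hφ hd hid)
    exact ⟨c, hc, hgap2 c hc hGap⟩
  tfae_have 2 → 1 := by
    rintro ⟨c, hc, h⟩ φ hφ hd hid
    exact Pool.Agent.L7h55.IDT.infdiv_of_local B ⟨c, hc, fun φ hφ hd =>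
      h φ hφ hd (τ 1) (Pool.Agent.L7h55.IDT.tau_mem B.hτ 1)
        (Pool.Agent.L7h55.IDT.tau_ne (hτ := B.hτ) one_ne_zero)⟩ φ hφ hd hid
  tfae_have 1 → 3 := by
    intro h
    obtain ⟨c, hc, hGap⟩ := Pool.Agent.L7h55.IDT.gap_of_infdiv B
      (fun φ hφ hd hid => h φ hφ hd hid)
    refine ⟨c, hc, fun φ hφ g hg => ?_⟩
    obtain ⟨μ, D⟩ := B.data φ hφ.1
    exact Pool.Agent.L7h55.IDT.gap_extreme hGap D hφ hg
  tfae_have 3 → 2 := by
    rintro ⟨c, hc, h⟩
    have hGap := Pool.Agent.L7h55.IDT.gap_of_extreme B hc (fun φ hφ g hg => h φ hφ g hg)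
    exact ⟨1 / (2 / c), by positivity, hgap2 _ (by positivity) hGap⟩
  tfae_have 1 → 4 := by
    intro h s a hs hne
    obtain ⟨c, hc, hGap⟩ := Pool.Agent.L7h55.IDT.gap_of_infdiv B
      (fun φ hφ hd hid => h φ hφ hd hid)
    exact Pool.Agent.L7h55.IDT.faithful B hc hGap s a hs hne
  tfae_have 4 → 1 := by
    intro h φ hφ hd hid
    classical
    have h1ne : (1 : G) ≠ τ 1 :=
      fun e => Pool.Agent.L7h55.IDT.tau_ne (hτ := B.hτ) (one_ne_zero (α := ℤ)) e.symm
    obtain ⟨δ, hδ, hF⟩ := h {1, τ 1} (fun g => if g = 1 then 1 else -1) (by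
      intro g hg
      rw [Finset.mem_insert, Finset.mem_singleton] at hg
      rcases hg with rfl | rfl
      · exact ⟨0, fun x => by simp⟩
      · exact Pool.Agent.L7h55.IDT.tau_mem B.hτ 1) ⟨1, by simp, by simp⟩
    refine Pool.Agent.L7h55.IDT.infdiv_of_local B ⟨δ / 2, by positivity, fun φ hφ hd => ?_⟩ φ hφ hd
      hid
    have h5 := hF φ hφ hd
    rw [Finset.sum_pair h1ne, Finset.sum_pair h1ne, Finset.sum_pair h1ne] at h5
    simp only [if_true, if_neg h1ne.symm, star_one, one_mul, inv_one, mul_one, star_neg,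
      inv_mul_cancel, hφ.1, Pool.Agent.W763.Tr.PD.inv hφ.2.2 hφ.1, neg_mul, neg_neg] at h5
    simp only [Complex.add_re, Complex.neg_re, Complex.one_re, Complex.star_def,
      Complex.conj_re] at h5
    linarith
  tfae_have 1 → 6 := by
    intro h
    obtain ⟨c, hc, hGap⟩ := Pool.Agent.L7h55.IDT.gap_of_infdiv B
      (fun φ hφ hd hid => h φ hφ hd hid)
    refine ⟨2 / c, fun ψ hψ g hg u hu => ?_⟩
    rw [show u = τ 1 by rw [← ht1]; exact Subtype.ext hu]
    exact Pool.Agent.L7h55.IDT.cnd_unif B hc hGap (hcnd ψ hψ) hg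
  tfae_have 6 → 5 := by
    rintro ⟨C, hC⟩ ψ hψ
    exact ⟨_, fun g hg => hC ψ hψ g hg ⟨t, mt⟩ rfl⟩
  tfae_have 5 → 2 := by
    intro h
    obtain ⟨c, hc, hGap⟩ := Pool.Agent.L7h55.IDT.gap_of_cnd B (fun ψ hψ => h ψ (hcnd' ψ hψ))
    exact ⟨c, hc, hgap2 c hc hGap⟩
  tfae_finish

end Pool.Agent.Results.MP_81910f_an.InfinitelyDivisibleTraces
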