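import Mathlib
import Pool.Agent.L7h48.TR.SlowExt

/-!
# Cesàro averages of translations in the traces of `C*(ℤ² ⋉ ℤ[1/6])`

Let `G` be the group generated by `x ↦ 2 x`, `x ↦ 3 x`, `x ↦ x + 1` on `ℚ`, a copy of
`ℤ² ⋉ ℤ[1/6]`.  The tracial states of `C*(G)` are the normalised positive definite class functions
`φ` on `G`.  For a translation `g` and a finite combination `T = ∑ w_i g ^ i` in the group algebra,
`∑ star (w_j) w_i φ (g ^ (-j) g ^ i)` is the square of the norm of `T ξ`, `ξ` the cyclic vector of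
the GNS representation of `φ`.

The averages `N⁻¹ ∑_{i < N} (z g) ^ i ξ` and `M⁻¹ ∑_{i < M} (z g) ^ i ξ` are close for `M ≤ N ^ A`,
uniformly in all the tracial states and translations, for all roots of unity `z` of small order.
So an extreme conditionally finite-dimensional trace whose restriction to the powers of `g` has
least period `P` is, in mean square, close to the regular trace on every interval of length `P ^ δ`.

The measure theorem behind it is `Pool.Agent.N254.UD.measB` (no mass of the `×2`, `×3` invariant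
measures near the rational numbers of small denominator at one scale).
-/

set_option autoImplicit false

open scoped ComplexOrder

namespace Pool.Agent.Results.MP_81910f_an.SlowVariation

/-- The tracial states of `C*(G)`: the normalised positive definite class functions on `G`. -/
def TracialStates (G : Subgroup (Equiv.Perm ℚ)) : Set (G → ℂ) :=
  {ψ | ψ 1 = 1 ∧ (∀ g h : G, ψ (h * g * h⁻¹) = ψ g) ∧
    ∀ (s : Finset G) (c : G → ℂ), 0 ≤ ∑ i ∈ s, ∑ j ∈ s, star (c j) * c i * ψ (j⁻¹ * i)}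

/-- `h` is a translation `x ↦ x + r`. -/
def IsTranslation {G : Subgroup (Equiv.Perm ℚ)} (h : G) : Prop :=
  ∃ r : ℚ, ∀ x : ℚ, (h : Equiv.Perm ℚ) x = x + r

/-- The coefficient of `g ^ i` in `N⁻¹ ∑_{i < N} (z g) ^ i - M⁻¹ ∑_{i < M} (z g) ^ i`, for
`N ≤ M` and `i < M`. -/
noncomputable def weight (z : ℂ) (N M i : ℕ) : ℂ :=
  ((if i < N then (N : ℂ)⁻¹ else 0) - (M : ℂ)⁻¹) * z ^ i

/-- The square of the norm of `(∑_{i < M} w i • g ^ i) ξ` in the GNS space of `φ`, `ξ` the cyclic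
vector. -/
noncomputable def normSq {G : Subgroup (Equiv.Perm ℚ)} (φ : G → ℂ) (g : G) (w : ℕ → ℂ) (M : ℕ) : ℝ :=
  (∑ i ∈ Finset.range M, ∑ j ∈ Finset.range M, star (w j) * w i * φ ((g ^ j)⁻¹ * g ^ i)).re

/-- **The Cesàro averages of the powers of a translation vary slowly, uniformly in the trace.**
(1) There is `c > 0` such that for all `A ≥ 1`, `0 < ε ≤ 1`, all `N ≥ N₀ (A, ε)`, `N ≤ M ≤ N ^ A`,
all the tracial states `φ`, all the translations `g` and all the roots of unity `z` of order at most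
`N ^ (c ε / A)`, the vectors `N⁻¹ ∑_{i < N} (z g) ^ i ξ` and `M⁻¹ ∑_{i < M} (z g) ^ i ξ` in the GNS
space of `φ` are at distance at most `ε ^ (1/2)`, and so are the averages of `z ^ i |φ (g ^ i)| ^ 2`
over `i < N` and over `i < M`.
(2) For all `δ, ε > 0` there is `P₀` such that for every extreme tracial state `φ`, every
translation `g` and every `P ≥ P₀`, if `φ (g ^ P) = 1` and `P ≥ 1` is the least such number, then
the average of `|φ (g ^ n)| ^ 2` over `0 ≤ n < L` is at most `ε` as soon as `L ≥ P ^ δ`. -/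
theorem result (s2 s3 t : Equiv.Perm ℚ) (h2 : ∀ x : ℚ, s2 x = 2 * x) (h3 : ∀ x : ℚ, s3 x = 3 * x)
    (ht : ∀ x : ℚ, t x = x + 1) (G : Subgroup (Equiv.Perm ℚ))
    (hG : G = Subgroup.closure {s2, s3, t}) :
    (∃ c : ℝ, 0 < c ∧ ∀ A ε : ℝ, 1 ≤ A → 0 < ε → ε ≤ 1 → ∃ N₀ : ℕ, 1 ≤ N₀ ∧
      ∀ N M : ℕ, N₀ ≤ N → N ≤ M → (M : ℝ) ≤ (N : ℝ) ^ A →
      ∀ φ ∈ TracialStates G, ∀ g : G, IsTranslation g →
      ∀ (k : ℕ) (z : ℂ), 1 ≤ k → (k : ℝ) ≤ (N : ℝ) ^ (c * ε / A) → z ^ k = 1 →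
        normSq φ g (weight z N M) M ≤ ε ∧
        ‖∑ i ∈ Finset.range M, weight z N M i * (‖φ (g ^ i)‖ : ℂ) ^ 2‖ ^ 2 ≤ ε) ∧
    (∀ δ ε : ℝ, 0 < δ → 0 < ε → ∃ P₀ : ℕ, ∀ φ ∈ Set.extremePoints ℝ (TracialStates G),
      ∀ g : G, IsTranslation g → ∀ P : ℕ, P₀ ≤ P → φ (g ^ P) = 1 →
      (∀ n : ℕ, 1 ≤ n → n < P → φ (g ^ n) ≠ 1) →
      ∀ L : ℕ, (P : ℝ) ^ δ ≤ L → (L : ℝ)⁻¹ * ∑ n ∈ Finset.range L, ‖φ (g ^ n)‖ ^ 2 ≤ ε) := by
  refine ⟨?_, fun δ ε hδ hε => ?_⟩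
  · obtain ⟨c, hc, H⟩ := Pool.Agent.L7h48.TR.slow
    refine ⟨c, hc, fun A ε hA hε hε1 => ?_⟩
    obtain ⟨N₀, hN₀, H⟩ := H A ε hA hε hε1
    refine ⟨N₀, hN₀, fun N M hN hNM hM φ hφ g hg k z hk hkN hz => ?_⟩
    obtain ⟨r, hr⟩ := hg
    refine ⟨?_, Pool.Agent.L7h48.TR.slow_sq h2 h3 ht hG H hφ.1 hφ.2.1 hφ.2.2 hr hN hNM hM hk hkN hz⟩
    obtain ⟨s, hs, he⟩ := Pool.Agent.L7h48.TR.slow_tr' h2 h3 ht hG H hφ.1 hφ.2.1 hφ.2.2 hr hN hNM hM
      hk hkN hz
    unfold normSq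
    have : ∑ i ∈ Finset.range M, ∑ j ∈ Finset.range M,
        star (weight z N M j) * weight z N M i * φ ((g ^ j)⁻¹ * g ^ i) = (s : ℂ) := he
    rw [this, Complex.ofReal_re]
    exact hs
  · obtain ⟨P₀, H⟩ := Pool.Agent.L7h48.TR.ext_short h2 h3 ht hG hδ hε
    refine ⟨P₀, fun φ hφ g hg P hP h1 hmin L hL => ?_⟩
    obtain ⟨r, hr⟩ := hg
    exact H φ hφ g r hr P hP h1 hmin L hL

end Pool.Agent.Results.MP_81910f_an.SlowVariation
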